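import Pool.Agent.H345R2.A2.Four

/-!
# Pair correlation of the zeros in almost all short intervals

Assume the Riemann hypothesis.  Fix `0 < η < 1`, `0 < μ < (1 + η)/2` and an even test function `r`
of bandwidth `μ`.  For every `T ^ η ≤ H ≤ T / 8` and all `t ∈ [T, 2T]` outside a set of measure
`T ^ (1 - δ)`, the sum of `r((γ - γ') log T / 2π)` over all the pairs of ordinates in `(t, t + H]`
is `(H log T / 2π) (r(0) + ∫ r(x) (1 - (sin πx / πx)²) dx)` up to `ε (H log T / 2π)`.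
-/

open Filter Topology Complex MeasureTheory

namespace Pool.Agent.Results.MP_103a5c_nt.AlmostAllShortPairs

/-- the nontrivial zeros of zeta with ordinate in `(a, b]` -/
def zeros (a b : ℝ) : Set ℂ :=
  {s : ℂ | riemannZeta s = 0 ∧ 0 < s.re ∧ s.re < 1 ∧ a < s.im ∧ s.im ≤ b}

/-- the multiplicity of a zero -/
noncomputable def m (s : ℂ) : ℝ := (analyticOrderNatAt riemannZeta s : ℝ)

/-- the sum of `f (γ - γ')` over the ordered pairs of ordinates of zeros in `(a, b]`, counted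
with multiplicity (the diagonal pairs are included) -/
noncomputable def pairs (a b : ℝ) (f : ℝ → ℝ) : ℝ :=
  ∑ᶠ s ∈ zeros a b, ∑ᶠ s' ∈ zeros a b, m s * m s' * f (s.im - s'.im)

/-- `r` is a test function of bandwidth `μ`: the cosine transform of a Lipschitz function
that vanishes outside `(-μ, μ)`, with `r(x) = O(x⁻²)` -/
def Test (μ : ℝ) (r : ℝ → ℝ) : Prop :=
  ∃ ψ : ℝ → ℝ, (∃ K : ℝ, ∀ x y, |ψ x - ψ y| ≤ K * |x - y|) ∧ (∀ x, μ ≤ |x| → ψ x = 0) ∧
    (∀ x, r x = ∫ α in (-μ)..μ, ψ α * Real.cos (2 * Real.pi * α * x)) ∧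
    ∃ C : ℝ, ∀ x, |r x| * x ^ 2 ≤ C

/-- the pair sum of the ordinates in `(t, t + H]` at the scale of the mean spacing -/
noncomputable def P (r : ℝ → ℝ) (t H T : ℝ) : ℝ :=
  (H * Real.log T / (2 * Real.pi))⁻¹ *
    pairs t (t + H) (fun d => r (d * Real.log T / (2 * Real.pi)))

/-- the main term -/
noncomputable def M (r : ℝ → ℝ) : ℝ :=
  r 0 + ∫ x, r x * (1 - (Real.sin (Real.pi * x) / (Real.pi * x)) ^ 2)

lemma zeros_eq (T₁ T₂ : ℝ) : zeros T₁ T₂ = H370.zset riemannZeta T₁ T₂ := by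
  ext s
  simp only [zeros, H370.zset, Set.mem_ofPred_eq]
  tauto

/-- the sets of zeros that are summed over are finite -/
theorem zeros_finite (T₁ T₂ : ℝ) (h : 0 < T₁) : (zeros T₁ T₂).Finite := by
  rw [zeros_eq]
  exact H370.zset_finite' H370.good_zeta T₁ T₂ h

lemma P_eq (ψ : ℝ → ℝ) (μ t H T : ℝ) :
    P (H370.A2.RR ψ μ) t H T = (H * Real.log T / (2 * Real.pi))⁻¹ *
      H370.A2.PP ψ μ t (t + H) (Real.log T) := by
  unfold P pairs H370.A2.PP
  rw [zeros_eq]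
  rfl

theorem result (hRH : RiemannHypothesis) :
    ∀ η μ ε : ℝ, 0 < η → η < 1 → 0 < μ → μ < (1 + η) / 2 → 0 < ε →
    ∀ r : ℝ → ℝ, Test μ r →
      ∃ δ : ℝ, 0 < δ ∧ ∃ T₀ : ℝ, ∀ T : ℝ, T₀ ≤ T → ∀ H : ℝ, T ^ η ≤ H → H ≤ T / 8 →
      volume {t : ℝ | T ≤ t ∧ t ≤ 2 * T ∧ ε < |P r t H T - M r|} ≤
        ENNReal.ofReal (T ^ (1 - δ)) := by
  rintro η μ ε hη0 hη1 hμ hμη hε r ⟨ψ, ⟨K, hK⟩, hz, hr, C, hC⟩
  have hrr : r = H370.A2.RR ψ μ := funext hr
  subst hrr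
  have hK0 : 0 ≤ K := by
    have h1 := hK 1 0
    have h2 := abs_nonneg (ψ 1 - ψ 0)
    simp at h1
    linarith
  have hψc : Continuous ψ := by
    have : LipschitzWith K.toNNReal ψ := by
      refine LipschitzWith.of_dist_le_mul fun x y => ?_
      rw [Real.dist_eq, Real.dist_eq, Real.coe_toNNReal _ hK0]
      exact hK x y
    exact this.continuous
  have hM : M (H370.A2.RR ψ μ) = ψ 0 + ∫ α in (-μ)..μ, |α| * ψ α :=
    H370.A2.main_term hψc hz (by linarith) hC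
  obtain ⟨δ, hδ, T0, hT0, h⟩ := H370.A2.almost_smooth hRH η μ ε hη0 hη1 hμ
    (by linarith) hε ψ K hK hz C hC
  refine ⟨δ, hδ, T0, fun T hT H hH1 hH2 => (measure_mono ?_).trans (h T hT H hH1 hH2)⟩
  rintro t ⟨ht1, ht2, ht3⟩
  refine ⟨⟨ht1, ht2⟩, fun g2 => ?_⟩
  have hTpos : 0 < T := by linarith
  have hL : 0 < Real.log T := Real.log_pos (by linarith)
  have hHpos : 0 < H := lt_of_lt_of_le (Real.rpow_pos_of_pos hTpos _) hH1
  have hM0 : 0 < H * Real.log T / (2 * Real.pi) := by have := Real.pi_pos; positivity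
  rw [P_eq, hM] at ht3
  have h2 : (H * Real.log T / (2 * Real.pi))⁻¹ *
      H370.A2.PP ψ μ t (t + H) (Real.log T) - (ψ 0 + ∫ α in (-μ)..μ, |α| * ψ α) =
      (H * Real.log T / (2 * Real.pi))⁻¹ * (H370.A2.PP ψ μ t (t + H) (Real.log T) -
      (H * Real.log T / (2 * Real.pi)) * (ψ 0 + ∫ α in (-μ)..μ, |α| * ψ α)) := by
    rw [mul_sub, inv_mul_cancel_left₀ hM0.ne']
  rw [h2, abs_mul, abs_of_pos (inv_pos.2 hM0), inv_mul_eq_div, lt_div_iff₀ hM0] at ht3
  exact absurd (ht3.trans_le g2) (lt_irrefl _)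

end Pool.Agent.Results.MP_103a5c_nt.AlmostAllShortPairs
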