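import Pool.Agent.H343R2.ZeroSide

open Complex

namespace Pool.Agent.Results.MP_103a5c_nt.BeyondOne

/-- the nontrivial zeros of `ζ` with ordinate in `(0, T]` -/
def zeros (T : ℝ) : Set ℂ :=
  {s : ℂ | 0 < s.re ∧ s.re < 1 ∧ 0 < s.im ∧ s.im ≤ T ∧ riemannZeta s = 0}

/-- the multiplicity of `s` as a zero of `ζ` -/
noncomputable def mult (s : ℂ) : ℕ := analyticOrderNatAt riemannZeta s

/-- Montgomery's function `F(α, T)`:
`(T/2π log T)⁻¹ ∑_{ρ, ρ'} T^(iα(γ-γ')) w(γ-γ')`, `w(u) = 4/(4+u²)`, zeros with multiplicity -/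
noncomputable def F (α T : ℝ) : ℂ :=
  ((T / (2 * Real.pi) * Real.log T : ℝ) : ℂ)⁻¹ *
    ∑ᶠ s ∈ zeros T, ∑ᶠ s' ∈ zeros T, (mult s : ℂ) * (mult s' : ℂ) *
      ((T : ℂ) ^ (I * α * (s.im - s'.im)) * (4 / (4 + (s.im - s'.im : ℂ) ^ 2)))

/-- the unconditional form of `F(α, T)`: `i(γ-γ')` is replaced by `ρ + conj ρ' - 1` -/
noncomputable def Fu (α T : ℝ) : ℂ :=
  ((T / (2 * Real.pi) * Real.log T : ℝ) : ℂ)⁻¹ *
    ∑ᶠ s ∈ zeros T, ∑ᶠ s' ∈ zeros T, (mult s : ℂ) * (mult s' : ℂ) *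
      ((T : ℂ) ^ (α * (s + (starRingEnd ℂ) s' - 1)) *
        (4 / (4 - (s + (starRingEnd ℂ) s' - 1) ^ 2)))

lemma zeros_finite (T : ℝ) : (zeros T).Finite := H370.zeta_zeros_finite T

lemma Fu_eq (α T : ℝ) (hT : 0 < T) : Fu α T = ((T / (2 * Real.pi) * Real.log T : ℝ) : ℂ)⁻¹ *
    H343.PPair H343.kW (α * Real.log T) (H343.ZSide.Z0 T) H343.ZSide.mz := by
  unfold Fu H343.PPair
  congr 1
  rw [finsum_mem_eq_finite_toFinset_sum _ (zeros_finite T)]
  apply Finset.sum_congr rfl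
  intro s _
  rw [finsum_mem_eq_finite_toFinset_sum _ (zeros_finite T)]
  apply Finset.sum_congr rfl
  intro s' _
  have hT0 : (T : ℂ) ≠ 0 := by exact_mod_cast hT.ne'
  rw [Complex.cpow_def_of_ne_zero hT0, ← Complex.ofReal_log hT.le]
  unfold H343.ZSide.mz H343.kW mult H370.mult
  push_cast
  congr 2
  congr 1
  ring

lemma F_eq_Fu (hRH : RiemannHypothesis) (α T : ℝ) : F α T = Fu α T := by
  unfold F Fu
  congr 1
  rw [finsum_mem_eq_finite_toFinset_sum _ (zeros_finite T),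
    finsum_mem_eq_finite_toFinset_sum _ (zeros_finite T)]
  apply Finset.sum_congr rfl
  intro s hs
  rw [finsum_mem_eq_finite_toFinset_sum _ (zeros_finite T),
    finsum_mem_eq_finite_toFinset_sum _ (zeros_finite T)]
  apply Finset.sum_congr rfl
  intro s' hs'
  have key : ∀ z ∈ (zeros_finite T).toFinset, z.re = 1 / 2 := by
    intro z hz
    rw [Set.Finite.mem_toFinset] at hz
    obtain ⟨h1, h2, h3, h4, h5⟩ := hz
    refine hRH z h5 ?_ ?_
    · rintro ⟨n, hn⟩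
      rw [hn] at h3
      simp at h3
    · rintro rfl
      simp at h3
  have e : s + (starRingEnd ℂ) s' - 1 = I * (s.im - s'.im : ℂ) := by
    apply Complex.ext
    · simp [key s hs, key s' hs']
      norm_num
    · simp
      ring
  have e2 : (4 : ℂ) - (I * (s.im - s'.im : ℂ)) ^ 2 = 4 + (s.im - s'.im : ℂ) ^ 2 := by
    rw [mul_pow, Complex.I_sq]
    ring
  rw [e, e2]
  congr 3
  ring

/-- Lower bound for the pair correlation function beyond `α = 1`. -/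
theorem result : ∀ ε : ℝ, 0 < ε → ∃ T0 : ℝ, ∀ T α : ℝ, T0 ≤ T → 1 ≤ α → α ≤ 3 / 2 →
    (Fu α T).im = 0 ∧ 3 / 2 - α - ε ≤ (Fu α T).re ∧
      (RiemannHypothesis → F α T = Fu α T) := by
  intro ε hε
  obtain ⟨T0, hT0, h⟩ := H343.pair_lower ε hε
  refine ⟨max T0 3, fun T α hT hα1 hα2 => ?_⟩
  have hTT0 : T0 ≤ T := (le_max_left _ _).trans hT
  have hT3 : 3 ≤ T := (le_max_right _ _).trans hT
  have hTpos : 0 < T := by linarith
  have hlog : 0 < Real.log T := Real.log_pos (by linarith)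
  have hX : 0 < T / (2 * Real.pi) * Real.log T := by
    have := Real.pi_pos
    positivity
  have h1 := h T α hTT0 hα1 hα2
  have hZ : ∀ s ∈ H343.ZSide.Z0 T, 0 < s.re ∧ s.re < 1 := by
    intro s hs
    unfold H343.ZSide.Z0 at hs
    rw [Set.Finite.mem_toFinset] at hs
    exact ⟨hs.1, hs.2.1⟩
  have him := (H343.pair_W 1 (α * Real.log T) 0 one_pos le_rfl (H343.ZSide.Z0 T) H343.ZSide.mz hZ).1
  have e : Fu α T = (((T / (2 * Real.pi) * Real.log T)⁻¹ *
      (H343.PPair H343.kW (α * Real.log T) (H343.ZSide.Z0 T) H343.ZSide.mz).re : ℝ) : ℂ) := by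
    rw [Fu_eq α T hTpos]
    have e1 : H343.PPair H343.kW (α * Real.log T) (H343.ZSide.Z0 T) H343.ZSide.mz =
        ((H343.PPair H343.kW (α * Real.log T) (H343.ZSide.Z0 T) H343.ZSide.mz).re : ℂ) := by
      apply Complex.ext
      · simp
      · simpa using him
    rw [e1]
    push_cast
    simp
  refine ⟨?_, ?_, fun hRH => F_eq_Fu hRH α T⟩
  · rw [e]; simp
  · rw [e, Complex.ofReal_re, ← div_eq_inv_mul, le_div_iff₀ hX]
    exact h1

end Pool.Agent.Results.MP_103a5c_nt.BeyondOne
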