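import Pool.Agent.H332B.Fin

open Complex

namespace Pool.Agent.Results.MP_103a5c_nt.ClosePairs

/-- the nontrivial zeros of `ζ` with ordinate in `(0, T]` -/
def zeros (T : ℝ) : Set ℂ :=
  {s : ℂ | 0 < s.re ∧ s.re < 1 ∧ 0 < s.im ∧ s.im ≤ T ∧ riemannZeta s = 0}

/-- the multiplicity of `s` as a zero of `ζ` -/
noncomputable def mult (s : ℂ) : ℕ := analyticOrderNatAt riemannZeta s

/-- `N(T; α, β)`: the number of ordered pairs of zeros (counted with multiplicity, the diagonal
included) with ordinates in `(0, T]` whose difference lies in `[2πα / log T, 2πβ / log T]` -/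
noncomputable def N (T α β : ℝ) : ℕ :=
  ∑ᶠ s ∈ zeros T, ∑ᶠ s' ∈ {s' : ℂ | s' ∈ zeros T ∧
    2 * Real.pi * α / Real.log T ≤ s.im - s'.im ∧ s.im - s'.im ≤ 2 * Real.pi * β / Real.log T},
      mult s * mult s'

lemma zeros_finite (T : ℝ) : (zeros T).Finite := H370.zeta_zeros_finite T

lemma N_eq (T : ℝ) (hT : 1 < T) :
    (N T (-1 / 200) (1 / 200) : ℝ) = H332B.N2 T (Real.pi / (100 * Real.log T)) := by
  classical
  have hlog : 0 < Real.log T := Real.log_pos hT
  unfold N H332B.N2 H343.ZSide.Z0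
  rw [finsum_mem_eq_finite_toFinset_sum _ (zeros_finite T)]
  push_cast
  apply Finset.sum_congr rfl
  intro s _
  have hfin : {s' : ℂ | s' ∈ zeros T ∧
      2 * Real.pi * (-1 / 200) / Real.log T ≤ s.im - s'.im ∧
      s.im - s'.im ≤ 2 * Real.pi * (1 / 200) / Real.log T}.Finite :=
    (zeros_finite T).subset fun _ h => h.1
  rw [finsum_mem_eq_finite_toFinset_sum _ hfin]
  push_cast
  rw [← Finset.sum_filter]
  apply Finset.sum_congr
  · ext s'
    rw [Set.Finite.mem_toFinset, Finset.mem_filter, Set.Finite.mem_toFinset, abs_le]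
    have e1 : 2 * Real.pi * (-1 / 200) / Real.log T = -(Real.pi / (100 * Real.log T)) := by
      field_simp
      ring
    have e2 : 2 * Real.pi * (1 / 200) / Real.log T = Real.pi / (100 * Real.log T) := by
      field_simp
      ring
    rw [Set.mem_ofPred_eq, e1, e2]
    rfl
  · intro s' _
    rfl

lemma sq_le_N2 (T : ℝ) (hT : 1 < T) :
    ∑ᶠ s ∈ zeros T, ((mult s : ℝ)) ^ 2 ≤ H332B.N2 T (Real.pi / (100 * Real.log T)) := by
  classical
  have hlog : 0 < Real.log T := Real.log_pos hT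
  have hw : 0 ≤ Real.pi / (100 * Real.log T) := by
    have := Real.pi_pos
    positivity
  unfold H332B.N2 H343.ZSide.Z0
  rw [finsum_mem_eq_finite_toFinset_sum _ (zeros_finite T)]
  apply Finset.sum_le_sum
  intro s hs
  have h1 : (mult s : ℝ) ^ 2 = if |s.im - s.im| ≤ Real.pi / (100 * Real.log T) then
      H343.ZSide.mz s * H343.ZSide.mz s else 0 := by
    rw [sub_self, abs_zero, if_pos hw, sq]
    rfl
  rw [h1]
  refine Finset.single_le_sum (f := fun s' : ℂ => if |s.im - s'.im| ≤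
    Real.pi / (100 * Real.log T) then H343.ZSide.mz s * H343.ZSide.mz s' else 0) ?_ hs
  intro s' _
  have h2 : ∀ z, 0 ≤ H343.ZSide.mz z := fun z => Nat.cast_nonneg _
  split_ifs
  · exact mul_nonneg (h2 s) (h2 s')
  · exact le_rfl

/-- Under RH, close pairs and multiple zeros: at most `1.317 (T/2π) log T`. -/
theorem result (hRH : RiemannHypothesis) : ∃ T0 : ℝ, ∀ T : ℝ, T0 ≤ T →
    (N T (-1 / 200) (1 / 200) : ℝ) ≤ 1317 / 1000 * (T / (2 * Real.pi) * Real.log T) ∧
    ∑ᶠ s ∈ zeros T, (mult s : ℝ) ^ 2 ≤ 1317 / 1000 * (T / (2 * Real.pi) * Real.log T) := by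
  obtain ⟨T1, h⟩ := H332B.fin hRH
  refine ⟨max T1 2, fun T hT => ?_⟩
  have hT1 : T1 ≤ T := (le_max_left _ _).trans hT
  have hT2 : 2 ≤ T := (le_max_right _ _).trans hT
  have hT3 : 1 < T := by linarith
  have h1 := h T hT1
  have e : H332B.X T = T / (2 * Real.pi) * Real.log T := by
    unfold H332B.X
    ring
  rw [e] at h1
  exact ⟨(N_eq T hT3).le.trans h1, (sq_le_N2 T hT3).trans h1⟩

end Pool.Agent.Results.MP_103a5c_nt.ClosePairs
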