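import Pool.Agent.H382P.NZlow

open Filter

namespace Pool.Agent.Results.MP_103a5c_nt.SmallPairs

/-- multiplicity of `s` as a zero of the Riemann zeta function (order of vanishing at `s`) -/
noncomputable def zmult (s : ℂ) : ℕ := analyticOrderNatAt riemannZeta s

/-- the number of nontrivial zeros of `ζ` with ordinate in `(0, t]`, with multiplicity -/
noncomputable def NZ (t : ℝ) : ℕ :=
  ∑ᶠ s ∈ {s : ℂ | riemannZeta s = 0 ∧ 0 < s.re ∧ s.re < 1 ∧ 0 < s.im ∧ s.im ≤ t}, zmult s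

/-- for `n ≥ 1`: the `n`-th positive ordinate of a nontrivial zero of `ζ`, the ordinates being
listed in nondecreasing order and repeated according to multiplicity -/
noncomputable def ord (n : ℕ) : ℝ := sInf {t : ℝ | n ≤ NZ t}

/-- `N(T; α, β)`: the number of ordered pairs of zeros (counted with multiplicity, diagonal
included) with ordinates in `(0, T]` whose difference lies in `[2πα / log T, 2πβ / log T]` -/
noncomputable def pairs (T α β : ℝ) : ℕ :=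
  {q : ℕ × ℕ | 1 ≤ q.1 ∧ 1 ≤ q.2 ∧ ord q.1 ≤ T ∧ ord q.2 ≤ T ∧
    2 * Real.pi * α / Real.log T ≤ ord q.1 - ord q.2 ∧
    ord q.1 - ord q.2 ≤ 2 * Real.pi * β / Real.log T}.ncard

theorem pairs_lower (T α β : ℝ) (hT : 1 < T) (hα : α ≤ 0) (hβ : 0 ≤ β) :
    SG.NZ T + {q : ℕ × ℕ | 1 ≤ q.1 ∧ 1 ≤ q.2 ∧ q.1 ≠ q.2 ∧ SG.ord q.1 ≤ T ∧ SG.ord q.2 ≤ T ∧
        0 ≤ (SG.ord q.1 - SG.ord q.2) * (Real.log T / (2 * Real.pi)) ∧
        (SG.ord q.1 - SG.ord q.2) * (Real.log T / (2 * Real.pi)) ≤ β}.ncard ≤ pairs T α β := by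
  have hlog : 0 < Real.log T := Real.log_pos hT
  have hpi := Real.pi_pos
  set P : Set (ℕ × ℕ) := {q : ℕ × ℕ | 1 ≤ q.1 ∧ 1 ≤ q.2 ∧ ord q.1 ≤ T ∧ ord q.2 ≤ T ∧
    2 * Real.pi * α / Real.log T ≤ ord q.1 - ord q.2 ∧
    ord q.1 - ord q.2 ≤ 2 * Real.pi * β / Real.log T} with hP
  set Q : Set (ℕ × ℕ) := {q : ℕ × ℕ | 1 ≤ q.1 ∧ 1 ≤ q.2 ∧ q.1 ≠ q.2 ∧ SG.ord q.1 ≤ T ∧ SG.ord q.2 ≤ T ∧
        0 ≤ (SG.ord q.1 - SG.ord q.2) * (Real.log T / (2 * Real.pi)) ∧
        (SG.ord q.1 - SG.ord q.2) * (Real.log T / (2 * Real.pi)) ≤ β} with hQ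
  set D : Set (ℕ × ℕ) := (fun n : ℕ => (n, n)) '' (Set.Icc 1 (SG.NZ T)) with hD
  have hPfin : P.Finite := by
    refine ((Set.finite_Iic (SG.NZ T)).prod (Set.finite_Iic (SG.NZ T))).subset ?_
    rintro ⟨a, b⟩ ⟨h1, h2, h3, h4, -, -⟩
    exact ⟨(SG.ord_le_iff h1 T).mp h3, (SG.ord_le_iff h2 T).mp h4⟩
  have hQP : Q ⊆ P := by
    rintro ⟨a, b⟩ ⟨h1, h2, h3, h4, h5, h6, h7⟩
    refine ⟨h1, h2, h4, h5, ?_, ?_⟩
    · change 2 * Real.pi * α / Real.log T ≤ SG.ord a - SG.ord b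
      have h8 : 0 ≤ SG.ord a - SG.ord b := by
        by_contra hcon
        push Not at hcon
        have h9 : 0 < Real.log T / (2 * Real.pi) := by positivity
        have := mul_neg_of_neg_of_pos hcon h9
        simp only at h6
        linarith
      refine le_trans ?_ h8
      apply div_nonpos_of_nonpos_of_nonneg _ hlog.le
      nlinarith
    · change SG.ord a - SG.ord b ≤ 2 * Real.pi * β / Real.log T
      rw [le_div_iff₀ hlog]
      simp only at h7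
      rw [← mul_div_assoc, div_le_iff₀ (by positivity)] at h7
      linarith
  have hDP : D ⊆ P := by
    rintro ⟨a, b⟩ ⟨n, ⟨hn1, hn2⟩, hn⟩
    simp only [Prod.mk.injEq] at hn
    obtain ⟨rfl, rfl⟩ := hn
    have h1 : SG.ord n ≤ T := (SG.ord_le_iff hn1 T).mpr hn2
    refine ⟨hn1, hn1, h1, h1, ?_, ?_⟩
    · simp only [sub_self]
      apply div_nonpos_of_nonpos_of_nonneg _ hlog.le
      nlinarith
    · simp only [sub_self]
      positivity
  have hdisj : Disjoint D Q := by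
    rw [Set.disjoint_left]
    rintro ⟨a, b⟩ ⟨n, -, hn⟩ ⟨-, -, h3, -⟩
    simp only [Prod.mk.injEq] at hn
    obtain ⟨rfl, rfl⟩ := hn
    exact h3 rfl
  have hDc : D.ncard = SG.NZ T := by
    rw [hD, Set.ncard_image_of_injective _ (fun a b h => by simpa using h)]
    rw [Set.ncard_eq_toFinset_card']
    simp
  rw [← hDc]
  change D.ncard + Q.ncard ≤ P.ncard
  rw [← Set.ncard_union_eq hdisj (hPfin.subset hDP) (hPfin.subset hQP)]
  exact Set.ncard_le_ncard (Set.union_subset hDP hQP) hPfin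

/-- On the Riemann hypothesis, for every `α ≤ 0` and every `β > 1/2` the pair count `N(T; α, β)`
exceeds the diagonal contribution by a positive proportion. -/
theorem result (RH : RiemannHypothesis) (α β : ℝ) (hα : α ≤ 0) (hβ : 1 / 2 < β) :
    ∃ ε : ℝ, 0 < ε ∧ ∀ᶠ T : ℝ in atTop,
      (1 + ε) * (T / (2 * Real.pi) * Real.log T) ≤ (pairs T α β : ℝ) := by
  have hRHs : SP.RHs := by
    intro s h1 h2 h0
    apply RH s h0
    · rintro ⟨k, hk⟩
      have := congrArg Complex.re hk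
      simp at this
      have hk0 : (0 : ℝ) ≤ k := Nat.cast_nonneg k
      linarith
    · intro h; rw [h] at h2; simp at h2
  obtain ⟨ε, T0, hε, h⟩ := SP.pos_prop_pairs hRHs β hβ
  obtain ⟨T1, hT1, h1⟩ := SP.NZ_low (ε / 2) (by positivity)
  refine ⟨ε / 2, by positivity, ?_⟩
  filter_upwards [eventually_ge_atTop T0, eventually_ge_atTop T1] with T hT0 hTT1
  have h2 := h T hT0
  have h3 := h1 T hTT1
  have h4 := pairs_lower T α β (by linarith) hα (by linarith)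
  have h5 : (SG.NZ T : ℝ) + ({q : ℕ × ℕ | 1 ≤ q.1 ∧ 1 ≤ q.2 ∧ q.1 ≠ q.2 ∧ SG.ord q.1 ≤ T ∧
      SG.ord q.2 ≤ T ∧ 0 ≤ (SG.ord q.1 - SG.ord q.2) * (Real.log T / (2 * Real.pi)) ∧
        (SG.ord q.1 - SG.ord q.2) * (Real.log T / (2 * Real.pi)) ≤ β}.ncard : ℝ) ≤ pairs T α β := by
    exact_mod_cast h4
  nlinarith

end Pool.Agent.Results.MP_103a5c_nt.SmallPairs
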